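import Pool.Agent.H82.KL.Targets

/-!
# K2: non-stationary phase
-/

set_option autoImplicit false

namespace Pool.Agent.H1.KL

open MeasureTheory Set Pool.Agent.H82.KL
open scoped ContDiff RealInnerProductSpace

variable {d : ℕ}

/-- parameters and frequencies -/
abbrev XX (d : ℕ) := (EE d × ℝ) × EE d

/-- the gradient of the phase -/
noncomputable def VV (q : XX d) : EE d := q.1.1 + (q.1.2 / ‖q.2‖) • q.2

/-- the set where the phase is smooth and not stationary -/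
def OO (d : ℕ) : Set (XX d) := {q | q.2 ≠ 0 ∧ VV q ≠ 0}

theorem isOpen_nz : IsOpen {q : XX d | q.2 ≠ 0} :=
  (isOpen_compl_singleton (x := (0 : EE d))).preimage continuous_snd

theorem VV_cd : ContDiffOn ℝ ∞ (VV (d := d)) {q | q.2 ≠ 0} := by
  unfold VV
  have h1 : ContDiffOn ℝ ∞ (fun q : XX d => q.1.2 / ‖q.2‖) {q | q.2 ≠ 0} := by
    refine (contDiff_fst.snd.contDiffOn).div ?_ fun q hq => norm_ne_zero_iff.2 hq
    exact contDiff_snd.contDiffOn.norm ℝ fun q hq => hq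
  have h2 : ContDiffOn ℝ ∞ (fun q : XX d => (q.1.2 / ‖q.2‖) • q.2) {q | q.2 ≠ 0} :=
    h1.smul contDiff_snd.contDiffOn
  exact (contDiff_fst.fst.contDiffOn).add h2

theorem isOpen_OO : IsOpen (OO d) := by
  have h := (VV_cd (d := d)).continuousOn.isOpen_inter_preimage isOpen_nz
    (t := {v | v ≠ 0}) isOpen_compl_singleton
  exact h

theorem VV_cd' : ContDiffOn ℝ ∞ (VV (d := d)) (OO d) := VV_cd.mono fun _ hq => hq.1

/-- smooth functions with support in `K` -/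
def Cl (K : Set (EE d)) (F : XX d → ℂ) : Prop :=
  ContDiffOn ℝ ∞ F (OO d) ∧ ∀ q : XX d, q.2 ∉ K → F q = 0

/-- the components divided by the square of the length -/
noncomputable def rj (j : Fin d) (q : XX d) : ℝ := VV q j / ‖VV q‖ ^ 2

theorem rj_cd (j : Fin d) : ContDiffOn ℝ ∞ (rj (d := d) j) (OO d) := by
  unfold rj
  have h1 : ContDiffOn ℝ ∞ (fun q : XX d => VV q j) (OO d) :=
    (EuclideanSpace.proj (𝕜 := ℝ) j).contDiff.comp_contDiffOn VV_cd'
  refine h1.div (VV_cd'.norm_sq ℝ) fun q hq => ?_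
  exact pow_ne_zero 2 (norm_ne_zero_iff.2 hq.2)

/-- `F V_j / |V|²` -/
noncomputable def fj (F : XX d → ℂ) (j : Fin d) (q : XX d) : ℂ := rj j q • F q

/-- the unit vectors -/
noncomputable def ej (j : Fin d) : EE d := EuclideanSpace.single j 1

/-- the partial derivative -/
noncomputable def dj (f : XX d → ℂ) (j : Fin d) (q : XX d) : ℂ := fderiv ℝ f q (0, ej j)

/-- the transposed operator -/
noncomputable def TT (F : XX d → ℂ) (q : XX d) : ℂ :=
  (-(1 / (2 * Real.pi * Complex.I))) * ∑ j, dj (fj F j) j q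

theorem cl_fj {K : Set (EE d)} {F : XX d → ℂ} (hF : Cl K F) (j : Fin d) : Cl K (fj F j) :=
  ⟨(rj_cd j).smul hF.1, fun q hq => by unfold fj; rw [hF.2 q hq, smul_zero]⟩

theorem zero_near {K : Set (EE d)} (hK : IsClosed K) {F : XX d → ℂ} (hF : Cl K F) {q : XX d}
    (hq : q.2 ∉ K) : F =ᶠ[nhds q] fun _ => 0 := by
  have h1 : IsOpen {q : XX d | q.2 ∉ K} := hK.isOpen_compl.preimage continuous_snd
  filter_upwards [h1.mem_nhds hq] with q' hq'
  exact hF.2 q' hq'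

theorem cl_dj {K : Set (EE d)} (hK : IsClosed K) {f : XX d → ℂ} (hf : Cl K f) (j : Fin d) :
    Cl K (dj f j) := by
  constructor
  · unfold dj
    exact (hf.1.fderiv_of_isOpen isOpen_OO (by simp)).clm_apply contDiffOn_const
  · intro q hq
    unfold dj
    rw [(zero_near hK hf hq).fderiv_eq]
    simp

theorem cl_TT {K : Set (EE d)} (hK : IsClosed K) {F : XX d → ℂ} (hF : Cl K F) : Cl K (TT F) := by
  constructor
  · unfold TT
    refine contDiffOn_const.mul (ContDiffOn.sum fun j _ => ?_)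
    exact (cl_dj hK (cl_fj hF j) j).1
  · intro q hq
    unfold TT
    rw [Finset.sum_eq_zero fun j _ => (cl_dj hK (cl_fj hF j) j).2 q hq, mul_zero]

section
variable {K : Set (EE d)} (hK : IsCompact K) (h0 : (0 : EE d) ∉ K) {p : EE d × ℝ}
  (hp : ∀ ξ ∈ K, VV (p, ξ) ≠ 0)
include hK h0 hp

theorem diff_at {F : XX d → ℂ} (hF : Cl K F) (ξ : EE d) : DifferentiableAt ℝ F (p, ξ) := by
  by_cases hξ : ξ ∈ K
  · have hO : (p, ξ) ∈ OO d := ⟨fun h => h0 (h ▸ hξ), hp ξ hξ⟩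
    exact (hF.1.contDiffAt (isOpen_OO.mem_nhds hO)).differentiableAt (by simp)
  · exact (zero_near hK.isClosed hF (q := (p, ξ)) hξ).differentiableAt_iff.2
      (differentiableAt_const _)

theorem sec_hasFDeriv {F : XX d → ℂ} (hF : Cl K F) (ξ : EE d) :
    HasFDerivAt (fun ξ => F (p, ξ))
      ((fderiv ℝ F (p, ξ)).comp (ContinuousLinearMap.inr ℝ (EE d × ℝ) (EE d))) ξ :=
  (diff_at hK h0 hp hF ξ).hasFDerivAt.comp ξ (hasFDerivAt_prodMk_right p ξ)

theorem sec_cont {F : XX d → ℂ} (hF : Cl K F) : Continuous fun ξ => F (p, ξ) :=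
  continuous_iff_continuousAt.2 fun ξ => (sec_hasFDeriv hK h0 hp hF ξ).continuousAt

theorem sec_supp {F : XX d → ℂ} (hF : Cl K F) : HasCompactSupport fun ξ => F (p, ξ) :=
  HasCompactSupport.intro hK fun ξ hξ => hF.2 (p, ξ) hξ

theorem sec_tsupp {F : XX d → ℂ} (hF : Cl K F) : tsupport (fun ξ => F (p, ξ)) ⊆ K :=
  closure_minimal (fun ξ hξ => by
    by_contra h
    exact hξ (hF.2 (p, ξ) h)) hK.isClosed

omit hK h0 hp in
/-- the phase function -/
noncomputable def gg (p : EE d × ℝ) (L : ℝ) (ξ : EE d) : ℂ := e (L * (inner ℝ p.1 ξ + p.2 * ‖ξ‖))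

omit hK h0 hp in
theorem gg_cont (L : ℝ) : Continuous (gg p L) := by
  unfold gg e
  fun_prop

omit hK h0 hp in
theorem gg_norm (L : ℝ) (ξ : EE d) : ‖gg p L ξ‖ = 1 := by
  unfold gg e
  exact Complex.norm_exp_ofReal_mul_I _

omit hK h0 hp in
theorem norm_deriv {ξ : EE d} (hξ : ξ ≠ 0) :
    HasFDerivAt (fun ξ : EE d => ‖ξ‖) ((1 / ‖ξ‖) • innerSL ℝ ξ) ξ := by
  have h1 : HasFDerivAt (fun ξ : EE d => ‖ξ‖ ^ 2) (2 • (innerSL ℝ ξ)) ξ :=
    (hasStrictFDerivAt_norm_sq ξ).hasFDerivAt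
  have h2 := h1.sqrt (pow_ne_zero 2 (norm_ne_zero_iff.2 hξ))
  simp only [Real.sqrt_sq (norm_nonneg _)] at h2
  have h3 : (1 / ‖ξ‖) • innerSL ℝ ξ = (1 / (2 * ‖ξ‖)) • 2 • innerSL ℝ ξ := by
    have h0 : ‖ξ‖ ≠ 0 := norm_ne_zero_iff.2 hξ
    ext v
    simp
    field_simp
  rw [h3]
  exact h2

omit hK h0 hp in
theorem gg_deriv (L : ℝ) {ξ : EE d} (hξ : ξ ≠ 0) : DifferentiableAt ℝ (gg p L) ξ ∧
    ∀ v : EE d, fderiv ℝ (gg p L) ξ v =
      2 * Real.pi * Complex.I * L * (inner ℝ (VV (p, ξ)) v : ℝ) * gg p L ξ := by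
  have h1 : HasFDerivAt (fun ξ : EE d => L * (inner ℝ p.1 ξ + p.2 * ‖ξ‖))
      (L • (innerSL ℝ p.1 + p.2 • ((1 / ‖ξ‖) • innerSL ℝ ξ))) ξ :=
    (((innerSL ℝ p.1).hasFDerivAt).add ((norm_deriv hξ).const_mul p.2)).const_mul L
  have h2 : HasFDerivAt (gg p L) _ ξ :=
    (((Complex.ofRealCLM.hasFDerivAt).comp ξ (h1.const_mul (2 * Real.pi))).mul_const
      Complex.I).cexp
  refine ⟨h2.differentiableAt, fun v => ?_⟩
  rw [h2.fderiv]
  have h3 : inner ℝ (VV (p, ξ)) v = inner ℝ p.1 v + p.2 * (1 / ‖ξ‖ * inner ℝ ξ v) := by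
    unfold VV
    rw [inner_add_left, inner_smul_left]
    simp
    ring
  rw [h3]
  simp [gg, e]
  ring

/-- integration by parts -/
theorem ibp {F : XX d → ℂ} (hF : Cl K F) (L : ℝ) :
    ∫ ξ, gg p L ξ * TT F (p, ξ) = L * ∫ ξ, gg p L ξ * F (p, ξ) := by
  have hπ : (2 * Real.pi * Complex.I : ℂ) ≠ 0 := by
    simp [Real.pi_ne_zero]
  have hj : ∀ j : Fin d, Integrable (fun ξ => gg p L ξ * dj (fj F j) j (p, ξ)) ∧
      Integrable (fun ξ => fj F j (p, ξ) *
        ((inner ℝ (VV (p, ξ)) (ej j) : ℝ) : ℂ) * gg p L ξ) ∧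
      ∫ ξ, gg p L ξ * dj (fj F j) j (p, ξ) = -(2 * Real.pi * Complex.I * L *
        ∫ ξ, fj F j (p, ξ) * ((inner ℝ (VV (p, ξ)) (ej j) : ℝ) : ℂ) * gg p L ξ) := by
    intro j
    have hf := cl_fj hF j
    have hdf := cl_dj hK.isClosed hf j
    have hVc : Cl K (fun q => fj F j q * ((inner ℝ (VV q) (ej j) : ℝ) : ℂ)) := by
      refine ⟨hf.1.mul ?_, fun q hq => by
        show fj F j q * _ = 0
        rw [hf.2 q hq, zero_mul]⟩
      exact Complex.ofRealCLM.contDiff.comp_contDiffOn (VV_cd'.inner ℝ contDiffOn_const)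
    have e1 : ∀ ξ, fderiv ℝ (fun ξ => fj F j (p, ξ)) ξ (ej j) = dj (fj F j) j (p, ξ) := by
      intro ξ
      rw [(sec_hasFDeriv hK h0 hp hf ξ).fderiv]
      rfl
    have e2 : ∀ ξ, fj F j (p, ξ) * fderiv ℝ (gg p L) ξ (ej j) = 2 * Real.pi * Complex.I * L *
        (fj F j (p, ξ) * ((inner ℝ (VV (p, ξ)) (ej j) : ℝ) : ℂ) * gg p L ξ) := by
      intro ξ
      by_cases hξ : ξ ∈ K
      · rw [(gg_deriv L (fun h => h0 (h ▸ hξ))).2]
        ring
      · rw [hf.2 (p, ξ) hξ]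
        ring
    have i1 : Integrable (fun ξ => dj (fj F j) j (p, ξ) * gg p L ξ) :=
      ((sec_cont hK h0 hp hdf).mul (gg_cont L)).integrable_of_hasCompactSupport
        (sec_supp hK h0 hp hdf).mul_right
    have i2 : Integrable (fun ξ => fj F j (p, ξ) *
        ((inner ℝ (VV (p, ξ)) (ej j) : ℝ) : ℂ) * gg p L ξ) :=
      ((sec_cont hK h0 hp hVc).mul (gg_cont L)).integrable_of_hasCompactSupport
        (sec_supp hK h0 hp hVc).mul_right
    have i3 : Integrable (fun ξ => fj F j (p, ξ) * gg p L ξ) :=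
      ((sec_cont hK h0 hp hf).mul (gg_cont L)).integrable_of_hasCompactSupport
        (sec_supp hK h0 hp hf).mul_right
    have key := integral_mul_fderiv_eq_neg_fderiv_mul_of_integrable (𝕜 := ℂ) (μ := volume)
      (f := fun ξ => fj F j (p, ξ)) (g := gg p L) (v := ej j)
      (by simpa only [e1] using i1) (by simpa only [e2] using i2.const_mul _) i3
      (fun ξ _ => (sec_hasFDeriv hK h0 hp hf ξ).differentiableAt)
      (fun ξ hξ => (gg_deriv L (fun h => h0 (h ▸ sec_tsupp hK h0 hp hf hξ))).1)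
    simp only [e1, e2] at key
    rw [integral_const_mul] at key
    refine ⟨by simpa only [mul_comm] using i1, i2, ?_⟩
    rw [key, neg_neg]
    exact integral_congr_ae (Filter.Eventually.of_forall fun ξ => mul_comm _ _)
  have hsum : ∀ ξ, ∑ j, fj F j (p, ξ) * ((inner ℝ (VV (p, ξ)) (ej j) : ℝ) : ℂ) * gg p L ξ =
      gg p L ξ * F (p, ξ) := by
    intro ξ
    by_cases hξ : ξ ∈ K
    · have h1 : ‖VV (p, ξ)‖ ^ 2 ≠ 0 := pow_ne_zero 2 (norm_ne_zero_iff.2 (hp ξ hξ))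
      have h2 : ∀ j, inner ℝ (VV (p, ξ)) (ej j) = VV (p, ξ) j := by
        intro j
        unfold ej
        rw [EuclideanSpace.inner_single_right]
        simp
      have h3 : ∑ j, rj j (p, ξ) * VV (p, ξ) j = 1 := by
        unfold rj
        have : ∀ j, VV (p, ξ) j / ‖VV (p, ξ)‖ ^ 2 * VV (p, ξ) j =
            (VV (p, ξ) j) ^ 2 / ‖VV (p, ξ)‖ ^ 2 := fun j => by ring
        rw [Finset.sum_congr rfl fun j _ => this j, ← Finset.sum_div,
          ← EuclideanSpace.real_norm_sq_eq]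
        exact div_self h1
      have h4 : ∀ j, fj F j (p, ξ) * ((inner ℝ (VV (p, ξ)) (ej j) : ℝ) : ℂ) * gg p L ξ =
          ((rj j (p, ξ) * VV (p, ξ) j : ℝ) : ℂ) * (gg p L ξ * F (p, ξ)) := by
        intro j
        rw [h2]
        unfold fj
        rw [Complex.real_smul]
        push_cast
        ring
      rw [Finset.sum_congr rfl fun j _ => h4 j, ← Finset.sum_mul, ← Complex.ofReal_sum, h3]
      simp
    · rw [hF.2 (p, ξ) hξ, mul_zero]
      refine Finset.sum_eq_zero fun j _ => ?_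
      rw [(cl_fj hF j).2 (p, ξ) hξ, zero_mul, zero_mul]
  have e3 : ∫ ξ, gg p L ξ * TT F (p, ξ) =
      (-(1 / (2 * Real.pi * Complex.I))) * ∑ j, ∫ ξ, gg p L ξ * dj (fj F j) j (p, ξ) := by
    rw [← integral_finsetSum _ fun j _ => (hj j).1, ← integral_const_mul]
    refine integral_congr_ae (Filter.Eventually.of_forall fun ξ => ?_)
    show gg p L ξ * ((-(1 / (2 * Real.pi * Complex.I))) * ∑ j, dj (fj F j) j (p, ξ)) =
      (-(1 / (2 * Real.pi * Complex.I))) * ∑ j, gg p L ξ * dj (fj F j) j (p, ξ)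
    rw [Finset.mul_sum, Finset.mul_sum, Finset.mul_sum]
    exact Finset.sum_congr rfl fun j _ => by ring
  rw [e3, Finset.sum_congr rfl fun j _ => (hj j).2.2, Finset.sum_neg_distrib, ← Finset.mul_sum,
    ← integral_finsetSum _ fun j _ => (hj j).2.1,
    integral_congr_ae (Filter.Eventually.of_forall hsum)]
  field_simp

end

/-- iterated integration by parts -/
theorem iter {K : Set (EE d)} (hK : IsCompact K) (h0 : (0 : EE d) ∉ K) {p : EE d × ℝ}
    (hp : ∀ ξ ∈ K, VV (p, ξ) ≠ 0) (L : ℝ) (M : ℕ) : ∀ {F : XX d → ℂ}, Cl K F →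
    Cl K (TT^[M] F) ∧
      ∫ ξ, gg p L ξ * (TT^[M] F) (p, ξ) = (L : ℂ) ^ M * ∫ ξ, gg p L ξ * F (p, ξ) := by
  induction M with
  | zero =>
    intro F hF
    exact ⟨hF, by simp⟩
  | succ M ih =>
    intro F hF
    obtain ⟨h1, h2⟩ := ih (cl_TT hK.isClosed hF)
    rw [Function.iterate_succ_apply]
    refine ⟨h1, ?_⟩
    rw [h2, ibp hK h0 hp hF]
    ring

theorem cl_iter {K : Set (EE d)} (hK : IsClosed K) (M : ℕ) : ∀ {F : XX d → ℂ}, Cl K F →
    Cl K (TT^[M] F) := by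
  induction M with
  | zero =>
    intro F hF
    exact hF
  | succ M ih =>
    intro F hF
    rw [Function.iterate_succ_apply]
    exact ih (cl_TT hK hF)

/-- the compact set of the normalised parameters and frequencies -/
def QQ (K : Set (EE d)) (c : ℝ) : Set (XX d) :=
  {q | (q.2 ∈ K ∧ ‖q.1.1‖ + |q.1.2| = 1) ∧ c ≤ ‖VV q‖}

theorem compact_QQ {K : Set (EE d)} (hK : IsCompact K) (h0 : (0 : EE d) ∉ K) (c : ℝ) :
    IsCompact (QQ K c) := by
  have h1 : IsCompact {q : XX d | q.2 ∈ K ∧ ‖q.1.1‖ + |q.1.2| = 1} := by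
    have h2 : IsCompact ((Metric.closedBall (0 : EE d × ℝ) 1) ×ˢ K) :=
      (isCompact_closedBall _ _).prod hK
    refine h2.of_isClosed_subset ?_ ?_
    · have h3 : IsClosed {q : XX d | q.2 ∈ K} := hK.isClosed.preimage continuous_snd
      have h4 : IsClosed {q : XX d | ‖q.1.1‖ + |q.1.2| = 1} :=
        isClosed_eq (by fun_prop) continuous_const
      exact h3.inter h4
    · rintro ⟨⟨y, s⟩, ξ⟩ ⟨h3, h4⟩
      refine ⟨?_, h3⟩
      have h4' : ‖y‖ + |s| = 1 := h4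
      rw [mem_closedBall_zero_iff, Prod.norm_def, max_le_iff]
      have := norm_nonneg y
      have := abs_nonneg s
      exact ⟨by show ‖y‖ ≤ 1; linarith, by show ‖s‖ ≤ 1; rw [Real.norm_eq_abs]; linarith⟩
  have h2 : ContinuousOn (fun q : XX d => ‖VV q‖) {q : XX d | q.2 ∈ K ∧ ‖q.1.1‖ + |q.1.2| = 1} :=
    (VV_cd.continuousOn.mono fun q hq => fun h => h0 (h ▸ hq.1)).norm
  have h3 := h2.preimage_isClosed_of_isClosed h1.isClosed (isClosed_Ici (a := c))
  exact h1.of_isClosed_subset h3 fun q hq => hq.1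

theorem pf_K2 : T_K2 := by
  intro d M c a hc ha
  obtain ⟨ha1, ha2, ha3⟩ := ha
  have hK : IsCompact (tsupport a) := ha2
  have hF : Cl (tsupport a) (fun q : XX d => a q.2) :=
    ⟨(ha1.comp contDiff_snd).contDiffOn, fun q hq => image_eq_zero_of_notMem_tsupport hq⟩
  have hFM := cl_iter hK.isClosed M hF
  obtain ⟨B, hB⟩ := (compact_QQ hK ha3 c).exists_bound_of_continuousOn
    (hFM.1.continuousOn.mono (s := OO d) fun q hq =>
      ⟨fun h => ha3 (h ▸ hq.1.1), fun h => by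
        have := hq.2
        rw [h, norm_zero] at this
        linarith⟩)
  obtain ⟨I, hI⟩ : ∃ I, I = ∫ ξ, ‖a ξ‖ := ⟨_, rfl⟩
  have hI0 : 0 ≤ I := by rw [hI]; exact integral_nonneg fun _ => norm_nonneg _
  obtain ⟨m, hm⟩ : ∃ m, m = (volume (tsupport a)).toReal := ⟨_, rfl⟩
  have hm0 : 0 ≤ m := by rw [hm]; exact ENNReal.toReal_nonneg
  refine ⟨2 ^ M * (I + |B| * m), by positivity, ?_⟩
  intro y s hys
  have hL0 : 0 ≤ ‖y‖ + |s| := by positivity
  have hUI : ‖U a (y, s)‖ ≤ I := by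
    unfold U
    refine (norm_integral_le_integral_norm _).trans (le_of_eq ?_)
    rw [hI]
    refine integral_congr_ae (Filter.Eventually.of_forall fun ξ => ?_)
    show ‖e (inner ℝ y ξ + s * ‖ξ‖) * a ξ‖ = ‖a ξ‖
    rw [norm_mul]
    have : ‖e (inner ℝ y ξ + s * ‖ξ‖)‖ = 1 := by
      unfold e
      exact Complex.norm_exp_ofReal_mul_I _
    rw [this, one_mul]
  have hBm : 0 ≤ |B| * m := mul_nonneg (abs_nonneg _) hm0
  rcases le_total (‖y‖ + |s|) 1 with hL | hL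
  · have h1 : (1 + ‖y‖ + |s|) ^ M ≤ 2 ^ M := pow_le_pow_left₀ (by positivity) (by linarith) M
    have h2 : 0 < (1 + ‖y‖ + |s|) ^ M := by positivity
    rw [← div_eq_mul_inv, le_div_iff₀ h2]
    calc ‖U a (y, s)‖ * (1 + ‖y‖ + |s|) ^ M ≤ I * 2 ^ M :=
          mul_le_mul hUI h1 h2.le hI0
      _ ≤ 2 ^ M * (I + |B| * m) := by
          have : (0 : ℝ) < 2 ^ M := by positivity
          nlinarith
  · obtain ⟨L, hLd⟩ : ∃ L, L = ‖y‖ + |s| := ⟨_, rfl⟩
    rw [← hLd] at hL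
    have hLp : 0 < L := by linarith
    have hV : ∀ ξ, VV ((L⁻¹ • y, L⁻¹ * s), ξ) = L⁻¹ • (y + (s / ‖ξ‖) • ξ) := by
      intro ξ
      unfold VV
      rw [smul_add, smul_smul]
      simp only
      congr 2
      ring
    have hVn : ∀ ξ ∈ tsupport a, c ≤ ‖VV ((L⁻¹ • y, L⁻¹ * s), ξ)‖ := by
      intro ξ hξ
      have h1 := hys ξ hξ
      rw [hV, norm_smul, norm_inv, Real.norm_eq_abs, abs_of_pos hLp, inv_mul_eq_div,
        le_div_iff₀ hLp, hLd]
      exact h1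
    have hp : ∀ ξ ∈ tsupport a, VV ((L⁻¹ • y, L⁻¹ * s), ξ) ≠ 0 := by
      intro ξ hξ h
      have := hVn ξ hξ
      rw [h, norm_zero] at this
      linarith
    obtain ⟨-, h2⟩ := iter hK ha3 hp L M hF
    have h3 : ∫ ξ, gg (L⁻¹ • y, L⁻¹ * s) L ξ * a ξ = U a (y, s) := by
      unfold U gg
      refine integral_congr_ae (Filter.Eventually.of_forall fun ξ => ?_)
      show e (L * (inner ℝ (L⁻¹ • y) ξ + L⁻¹ * s * ‖ξ‖)) * a ξ = e (inner ℝ y ξ + s * ‖ξ‖) * a ξ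
      rw [inner_smul_left]
      congr 2
      simp only [conj_trivial]
      field_simp
    rw [h3] at h2
    have h4 : ‖∫ ξ, gg (L⁻¹ • y, L⁻¹ * s) L ξ *
        (TT^[M] (fun q : XX d => a q.2)) ((L⁻¹ • y, L⁻¹ * s), ξ)‖ ≤ |B| * m := by
      have h5 : ∫ ξ, gg (L⁻¹ • y, L⁻¹ * s) L ξ *
          (TT^[M] (fun q : XX d => a q.2)) ((L⁻¹ • y, L⁻¹ * s), ξ) =
          ∫ ξ in tsupport a, gg (L⁻¹ • y, L⁻¹ * s) L ξ *
          (TT^[M] (fun q : XX d => a q.2)) ((L⁻¹ • y, L⁻¹ * s), ξ) := by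
        symm
        refine setIntegral_eq_integral_of_forall_compl_eq_zero fun ξ hξ => ?_
        rw [hFM.2 (_, ξ) hξ, mul_zero]
      rw [h5, hm]
      refine (norm_setIntegral_le_of_norm_le_const hK.measure_lt_top fun ξ hξ => ?_)
      rw [norm_mul, gg_norm, one_mul]
      refine le_trans (hB (_, ξ) ⟨⟨hξ, ?_⟩, hVn ξ hξ⟩) (le_abs_self B)
      show ‖L⁻¹ • y‖ + |L⁻¹ * s| = 1
      rw [norm_smul, abs_mul, norm_inv, Real.norm_eq_abs, abs_inv, abs_of_pos hLp, ← mul_add,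
        ← hLd]
      exact inv_mul_cancel₀ hLp.ne'
    rw [h2, norm_mul, norm_pow, Complex.norm_real, Real.norm_eq_abs, abs_of_pos hLp] at h4
    have h6 : 1 + ‖y‖ + |s| ≤ 2 * L := by rw [hLd]; rw [hLd] at hL; linarith
    have h7 : (1 + ‖y‖ + |s|) ^ M ≤ 2 ^ M * L ^ M := by
      rw [← mul_pow]
      exact pow_le_pow_left₀ (by positivity) h6 M
    have h8 : 0 < (1 + ‖y‖ + |s|) ^ M := by positivity
    rw [← div_eq_mul_inv, le_div_iff₀ h8]
    have h9 : (0 : ℝ) < 2 ^ M := by positivity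
    calc ‖U a (y, s)‖ * (1 + ‖y‖ + |s|) ^ M ≤ ‖U a (y, s)‖ * (2 ^ M * L ^ M) :=
          mul_le_mul_of_nonneg_left h7 (norm_nonneg _)
      _ = 2 ^ M * (L ^ M * ‖U a (y, s)‖) := by ring
      _ ≤ 2 ^ M * (I + |B| * m) := by
          refine mul_le_mul_of_nonneg_left ?_ h9.le
          linarith

theorem k2_main : T_K2 := pf_K2

end Pool.Agent.H1.KL
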